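import Pool.Agent.U692.AT.Main

/-!
# The converse: rational equals numerical equivalence implies that the category is abelian
-/

set_option autoImplicit false
set_option linter.unusedSectionVars false
set_option linter.unusedVariables false

namespace Pool.Agent.U692.AT

open CategoryTheory MonoidalCategory CategoryTheory.Limits U226.AB

universe v u w

section ring

variable {R : Type*} [Ring R] [IsArtinianRing R]

theorem regular_of_jacobson (h : Ring.jacobson R = ⊥) (a : R) : ∃ x, a * x * a = a := by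
  have h1 : IsSemisimpleRing R := IsArtinianRing.isSemisimpleRing_iff_jacobson.mpr h
  obtain ⟨J, hJ⟩ := exists_isCompl (Submodule.span R {a} : Submodule R R)
  have h2 : (1 : R) ∈ Submodule.span R {a} ⊔ J := by rw [hJ.sup_eq_top]; trivial
  obtain ⟨u, hu, v, hv, huv⟩ := Submodule.mem_sup.mp h2
  obtain ⟨x, hx⟩ := Submodule.mem_span_singleton.mp hu
  have h3 : a * v ∈ (Submodule.span R {a} ⊓ J : Submodule R R) := by
    refine ⟨?_, J.smul_mem a hv⟩
    have e1 : a * u + a * v = a := by rw [← mul_add, huv, mul_one]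
    have e2 : a * x * a = a * u := by
      rw [smul_eq_mul] at hx
      rw [mul_assoc, hx]
    have : a * v = (1 - a * x) • a := by
      rw [smul_eq_mul, sub_mul, one_mul, e2]
      exact (sub_eq_of_eq_add' e1.symm).symm
    rw [this]
    exact Submodule.smul_mem _ _ (Submodule.mem_span_singleton_self a)
  rw [hJ.inf_eq_bot, Submodule.mem_bot] at h3
  refine ⟨x, ?_⟩
  have h4 : a * u + a * v = a := by rw [← mul_add, huv, mul_one]
  rw [h3, add_zero, ← hx, smul_eq_mul, ← mul_assoc] at h4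
  exact h4

theorem jacobson_of_trace {T : Type*} [AddCommGroup T] (τ : R → T)
    (h1 : ∀ r : R, IsNilpotent r → τ r = 0) (h2 : ∀ r : R, (∀ b, τ (r * b) = 0) → r = 0) :
    Ring.jacobson R = ⊥ := by
  rw [eq_bot_iff]
  intro r hr
  rw [Submodule.mem_bot]
  apply h2
  intro b
  apply h1
  have h3 : IsNilpotent (Ring.jacobson R) := IsSemiprimaryRing.isNilpotent
  obtain ⟨n, hn⟩ := h3
  refine ⟨n, ?_⟩
  have h4 : r * b ∈ Ring.jacobson R := Ideal.mul_mem_right b _ hr
  have h5 : (r * b) ^ n ∈ (Ring.jacobson R) ^ n := Ideal.pow_mem_pow h4 n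
  rw [hn] at h5
  simpa using h5

end ring

section cat

variable {A : Type u} [Category.{v} A] [Preadditive A] [Linear ℚ A] [MonoidalCategory A]
  [MonoidalPreadditive A] [MonoidalLinear ℚ A] [SymmetricCategory A] [RightRigidCategory A]

/-- Every morphism `Mᘁ ⊗ M ⟶ 1` is the trace against an endomorphism. -/
theorem exists_end {M : A} (y : Mᘁ ⊗ M ⟶ 𝟙_ A) :
    ∃ b : M ⟶ M, Mᘁ ◁ b ≫ ε_ M Mᘁ = y := by
  refine ⟨tensorLeftHomEquiv M M Mᘁ (𝟙_ A) y ≫ (ρ_ M).hom, ?_⟩
  set s := tensorLeftHomEquiv M M Mᘁ (𝟙_ A) y ≫ (ρ_ M).hom with hs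
  have h3 : (tensorLeftHomEquiv M M Mᘁ (𝟙_ A)).symm (s ≫ (ρ_ M).inv) =
      Mᘁ ◁ s ≫ ε_ M Mᘁ := by
    simp [tensorLeftHomEquiv, ← unitors_inv_equal]
  have h4 : s ≫ (ρ_ M).inv = tensorLeftHomEquiv M M Mᘁ (𝟙_ A) y := by
    rw [hs]; simp
  rw [h4, Equiv.symm_apply_apply] at h3
  exact h3.symm

/-- If no nonzero class is numerically trivial, then no nonzero endomorphism is. -/
theorem end_eq_zero (h : ∀ M : A, numTrivial M = ⊥) {M : A} (a : M ⟶ M)
    (ha : ∀ b : M ⟶ M, tr (a ≫ b) = 0) : a = 0 := by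
  apply FrobeniusData.hat_injective M M
  rw [map_zero]
  have h1 : FrobeniusData.hat M M a ∈ numTrivial (Mᘁ ⊗ M) := by
    intro y
    obtain ⟨b, hb⟩ := exists_end y
    have h2 := ha b
    rw [tr_eq] at h2
    rw [← hb, ← h2]
    have e : FrobeniusData.hat M M a = coev M ≫ Mᘁ ◁ a := rfl
    rw [e]
    simp
  rw [h, Submodule.mem_bot] at h1
  exact h1

/-- The trace of a nilpotent endomorphism is zero. -/
def NilTrace (A : Type u) [Category.{v} A] [Preadditive A] [MonoidalCategory A]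
    [SymmetricCategory A] [RightRigidCategory A] : Prop :=
  ∀ (M : A) (f : M ⟶ M) (n : ℕ), iter f n = 0 → tr f = 0

variable [IsIdempotentComplete A] [HasFiniteProducts A] {K : Type w} [Field K] [CharZero K]

/-- Every morphism has a quasi-inverse. -/
theorem exists_quasi (D : FrobeniusData A K) (hu : UnitRat A) (hn : NilTrace A)
    (h : ∀ M : A, numTrivial M = ⊥) {M N : A} (f : M ⟶ N) :
    ∃ g : N ⟶ M, (f ≫ g) ≫ f = f := by
  have hN := unitNormal_of_num hu h
  have hbi : HasBinaryBiproducts A := HasBinaryBiproducts.of_hasBinaryProducts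
  have hfin : Module.Finite ℚ (End (M ⊞ N)) := (D.finrank_hom_le hu hN (M ⊞ N) (M ⊞ N)).1
  have hart : IsArtinianRing (End (M ⊞ N)) := IsArtinianRing.of_finite ℚ _
  have hj : Ring.jacobson (End (M ⊞ N)) = ⊥ := by
    apply jacobson_of_trace (R := End (M ⊞ N)) (fun r => tr (A := A) (M := M ⊞ N) r)
    · rintro r ⟨n, hr⟩
      exact hn _ _ n ((iter_eq_pow (M := M ⊞ N) r n).trans hr)
    · intro r hr
      apply end_eq_zero h
      intro b
      rw [tr_cyc]
      exact hr b
  obtain ⟨x, hx⟩ := regular_of_jacobson hj (biprod.fst ≫ f ≫ biprod.inr : M ⊞ N ⟶ M ⊞ N)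
  have hx' : (biprod.fst ≫ f ≫ biprod.inr : M ⊞ N ⟶ M ⊞ N) ≫ x ≫
      (biprod.fst ≫ f ≫ biprod.inr) = biprod.fst ≫ f ≫ biprod.inr := hx
  refine ⟨biprod.inr ≫ x ≫ biprod.fst, ?_⟩
  have h1 := congrArg (fun t => biprod.inl ≫ t ≫ biprod.snd) hx'
  simpa using h1

end cat

section abel

variable {A : Type u} [Category.{v} A] [Preadditive A] [IsIdempotentComplete A]
  (hq : ∀ {M N : A} (f : M ⟶ N), ∃ g : N ⟶ M, (f ≫ g) ≫ f = f)

include hq

theorem exists_kernel {M N : A} (f : M ⟶ N) : ∃ (Y : A) (i : Y ⟶ M) (w : i ≫ f = 0),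
    Nonempty (IsLimit (KernelFork.ofι i w)) := by
  obtain ⟨g, hg⟩ := hq f
  have he : (𝟙 M - f ≫ g) ≫ (𝟙 M - f ≫ g) = 𝟙 M - f ≫ g := by
    rw [Preadditive.sub_comp, Preadditive.comp_sub, Preadditive.comp_sub, ← Category.assoc (f ≫ g),
      hg]
    simp
  obtain ⟨Y, i, r, hir, hri⟩ := IsIdempotentComplete.idempotents_split M _ he
  have w : i ≫ f = 0 := by
    have h1 : i ≫ r ≫ i = i := by rw [← Category.assoc, hir, Category.id_comp]
    rw [← h1, hri, Category.assoc, Preadditive.sub_comp, Category.id_comp, hg, sub_self, comp_zero]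
  refine ⟨Y, i, w, ⟨KernelFork.IsLimit.ofι i w (fun t _ => t ≫ r) ?_ ?_⟩⟩
  · intro W t ht
    rw [Category.assoc, hri, Preadditive.comp_sub, ← Category.assoc, ht]
    simp
  · intro W t ht m hm
    rw [← hm, Category.assoc, hir, Category.comp_id]

theorem exists_cokernel {M N : A} (f : M ⟶ N) : ∃ (Y : A) (p : N ⟶ Y) (w : f ≫ p = 0),
    Nonempty (IsColimit (CokernelCofork.ofπ p w)) := by
  obtain ⟨g, hg⟩ := hq f
  have he : (𝟙 N - g ≫ f) ≫ (𝟙 N - g ≫ f) = 𝟙 N - g ≫ f := by
    have h2 : (g ≫ f) ≫ g ≫ f = g ≫ f := by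
      rw [Category.assoc, ← Category.assoc f g f, hg]
    rw [Preadditive.sub_comp, Preadditive.comp_sub, Preadditive.comp_sub, h2]
    simp
  obtain ⟨Y, i, r, hir, hri⟩ := IsIdempotentComplete.idempotents_split N _ he
  have w : f ≫ r = 0 := by
    have h1 : r ≫ i ≫ r = r := by rw [hir, Category.comp_id]
    rw [← h1, ← Category.assoc r i r, hri, Preadditive.sub_comp, Preadditive.comp_sub,
      Category.id_comp, ← Category.assoc, ← Category.assoc, hg, sub_self]
  refine ⟨Y, r, w, ⟨CokernelCofork.IsColimit.ofπ r w (fun t _ => i ≫ t) ?_ ?_⟩⟩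
  · intro W t ht
    rw [← Category.assoc, hri, Preadditive.sub_comp, Category.assoc, ht]
    simp
  · intro W t ht m hm
    rw [← hm, ← Category.assoc, hir, Category.id_comp]

/-- A category with quasi-inverses and finite products is abelian. -/
theorem isAbelian [HasFiniteProducts A] : IsAbelianCategory A := by
  have h1 : HasKernels A := ⟨fun f => by
    obtain ⟨Y, i, w, ⟨h⟩⟩ := exists_kernel hq f
    exact ⟨⟨⟨_, h⟩⟩⟩⟩
  have h2 : HasCokernels A := ⟨fun f => by
    obtain ⟨Y, i, w, ⟨h⟩⟩ := exists_cokernel hq f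
    exact ⟨⟨⟨_, h⟩⟩⟩⟩
  refine ⟨{ ‹Preadditive A› with
    normalMonoOfMono := ?_
    normalEpiOfEpi := ?_
    has_finite_products := inferInstance
    has_kernels := h1
    has_cokernels := h2 }, rfl⟩
  · intro M N f hf
    obtain ⟨g, hg⟩ := hq f
    have h3 : f ≫ g = 𝟙 M := by
      rw [← cancel_mono f, hg, Category.id_comp]
    obtain ⟨Y, p, w, ⟨hc⟩⟩ := exists_cokernel hq f
    have h4 : f ≫ (𝟙 N - g ≫ f) = 0 := by
      rw [Preadditive.comp_sub, ← Category.assoc, hg]
      simp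
    obtain ⟨l, hl⟩ := CokernelCofork.IsColimit.desc' hc _ h4
    have hl' : p ≫ l = 𝟙 N - g ≫ f := hl
    refine ⟨⟨Y, p, w, KernelFork.IsLimit.ofι f w (fun t _ => t ≫ g) ?_ ?_⟩⟩
    · intro W t ht
      have h5 : t ≫ (𝟙 N - g ≫ f) = 0 := by rw [← hl', ← Category.assoc, ht, zero_comp]
      rw [Preadditive.comp_sub, Category.comp_id, sub_eq_zero] at h5
      rw [Category.assoc, ← h5]
    · intro W t ht m hm
      rw [← hm, Category.assoc, h3, Category.comp_id]
  · intro M N f hf
    obtain ⟨g, hg⟩ := hq f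
    have h3 : g ≫ f = 𝟙 N := by
      rw [← cancel_epi f, ← Category.assoc, hg, Category.comp_id]
    obtain ⟨Y, i, w, ⟨hc⟩⟩ := exists_kernel hq f
    have h4 : (𝟙 M - f ≫ g) ≫ f = 0 := by
      rw [Preadditive.sub_comp, hg]
      simp
    obtain ⟨l, hl⟩ := KernelFork.IsLimit.lift' hc _ h4
    have hl' : l ≫ i = 𝟙 M - f ≫ g := hl
    refine ⟨⟨Y, i, w, CokernelCofork.IsColimit.ofπ f w (fun t _ => g ≫ t) ?_ ?_⟩⟩
    · intro W t ht
      have h5 : (𝟙 M - f ≫ g) ≫ t = 0 := by rw [← hl', Category.assoc, ht, comp_zero]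
      rw [Preadditive.sub_comp, Category.id_comp, sub_eq_zero] at h5
      rw [← Category.assoc, ← h5]
    · intro W t ht m hm
      rw [← hm, ← Category.assoc, h3, Category.id_comp]

end abel

section final

variable {A : Type u} [Category.{v} A] [Preadditive A] [Linear ℚ A] [MonoidalCategory A]
  [MonoidalPreadditive A] [MonoidalLinear ℚ A] [SymmetricCategory A] [RightRigidCategory A]
  [IsIdempotentComplete A] [HasFiniteProducts A] {K : Type w} [Field K] [CharZero K]

theorem abelian_of_num (D : FrobeniusData A K) (hu : UnitRat A) (hn : NilTrace A)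
    (h : ∀ M : A, numTrivial M = ⊥) : IsAbelianCategory A :=
  isAbelian fun f => exists_quasi D hu hn h f

end final

section final2

variable {A : Type u} [Category.{v} A] [inst : Preadditive A] [Linear ℚ A] [MonoidalCategory A]
  [MonoidalPreadditive A] [MonoidalLinear ℚ A] [SymmetricCategory A] [RightRigidCategory A]
  {K : Type w} [Field K] [CharZero K]

theorem semisimple_of_abelian (D : FrobeniusData A K) (hu : UnitRat A)
    (hT : IsAbelianCategory A → TensorSemisimple A) {V : A → Prop}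
    (hV : ∀ M, V M → TateEnd D M) (hA : ∀ M : A, TensorGenerated V M)
    (h : IsAbelianCategory A) (M : A) : Semisimple M ∧ numTrivial M = ⊥ := by
  have hT' := hT h
  clear hT
  obtain ⟨a, ha⟩ := h
  subst ha
  have h1 := generated_semisimple hu hT' hV (hA M).generated
  exact ⟨h1, numTrivial_eq_bot hu h1⟩

end final2

end Pool.Agent.U692.AT
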