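import Pool.Agent.U226.AB.Add

/-!
# Abelian rigid tensor categories with Frobenius data: semisimplicity from Tate's equality for
generators
-/

set_option autoImplicit false
set_option linter.unusedSectionVars false
set_option linter.unusedVariables false

namespace Pool.Agent.U692.AT

open CategoryTheory MonoidalCategory CategoryTheory.Limits U226.AB

universe v u w

section defs

/-- All subobjects of `M` are direct factors. -/
def Semisimple {A : Type u} [Category.{v} A] (M : A) : Prop :=
  ∀ (S : A) (x : S ⟶ M), Mono x → IsSplitMono x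

variable {A : Type u} [Category.{v} A] [Preadditive A] [Linear ℚ A] [MonoidalCategory A]
  [SymmetricCategory A] [RightRigidCategory A] {K : Type w} [Field K] (D : FrobeniusData A K)

/-- The number `∑ m_M(α) m_N(α)`, the sum over the Frobenius eigenvalues `α`. -/
def common (M N : A) : ℕ := (D.mult M).sum fun α m => m * D.mult N α

/-- The space of endomorphisms of `M` has the largest possible dimension `∑ m_M(α) ^ 2`. -/
def TateEnd (M : A) : Prop := common D M M ≤ Module.finrank ℚ (M ⟶ M)

/-- The smallest class of objects which contains the unit and the objects in `V` and which contains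
the direct factors of `M ⊕ N` and the tensor product `M ⊗ N` of two members `M`, `N`. -/
inductive TensorGenerated {A : Type u} [Category.{v} A] [Preadditive A] [MonoidalCategory A]
    (V : A → Prop) : A → Prop
  | unit : TensorGenerated V (𝟙_ A)
  | mem (M : A) : V M → TensorGenerated V M
  | factor (M N S : A) (i₁ : M ⟶ S) (i₂ : N ⟶ S) (p₁ : S ⟶ M) (p₂ : S ⟶ N) :
      p₁ ≫ i₁ + p₂ ≫ i₂ = 𝟙 S → TensorGenerated V M → TensorGenerated V N → TensorGenerated V S
  | tensor (M N : A) : TensorGenerated V M → TensorGenerated V N → TensorGenerated V (M ⊗ N)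

/-- The smallest class of objects which contains the unit and the objects in `V` and which contains
the subobjects and quotients of its members and the direct factors of `M ⊕ N` and the tensor
product `M ⊗ N` of two members `M`, `N`. -/
inductive Generated {A : Type u} [Category.{v} A] [Preadditive A] [MonoidalCategory A]
    (V : A → Prop) : A → Prop
  | unit : Generated V (𝟙_ A)
  | mem (M : A) : V M → Generated V M
  | sub {S M : A} (i : S ⟶ M) : Mono i → Generated V M → Generated V S
  | quot {M Q : A} (p : M ⟶ Q) : Epi p → Generated V M → Generated V Q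
  | factor (M N S : A) (i₁ : M ⟶ S) (i₂ : N ⟶ S) (p₁ : S ⟶ M) (p₂ : S ⟶ N) :
      p₁ ≫ i₁ + p₂ ≫ i₂ = 𝟙 S → Generated V M → Generated V N → Generated V S
  | tensor (M N : A) : Generated V M → Generated V N → Generated V (M ⊗ N)

/-- The category `A`, with its given addition of morphisms, is abelian. -/
def IsAbelianCategory (A : Type u) [Category.{v} A] [inst : Preadditive A] : Prop :=
  ∃ a : Abelian A, a.toPreadditive = inst

/-- The tensor product of two semisimple objects is semisimple. -/
def TensorSemisimple (A : Type u) [Category.{v} A] [MonoidalCategory A] : Prop :=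
  ∀ M N : A, Semisimple M → Semisimple N → Semisimple (M ⊗ N)

end defs

section general

variable {A : Type u} [Category.{v} A] [Abelian A]

/-- If the cokernel of a monomorphism has a section, then the monomorphism has a retraction. -/
theorem split_of_section {S M : A} (x : S ⟶ M) [Mono x] (s : cokernel x ⟶ M)
    (hs : s ≫ cokernel.π x = 𝟙 _) : IsSplitMono x := by
  have h : (𝟙 M - cokernel.π x ≫ s) ≫ cokernel.π x = 0 := by
    rw [Preadditive.sub_comp, Category.assoc, hs]
    simp
  have h2 := Abelian.monoLift_comp x _ h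
  refine ⟨⟨⟨Abelian.monoLift x _ h, ?_⟩⟩⟩
  rw [← cancel_mono x, Category.assoc, h2, Preadditive.comp_sub, ← Category.assoc,
    cokernel.condition]
  simp

theorem Semisimple.sub {S M : A} (i : S ⟶ M) [Mono i] (h : Semisimple M) : Semisimple S := by
  intro T x hx
  have h1 := h T (x ≫ i) (mono_comp x i)
  exact ⟨⟨⟨i ≫ retraction (x ≫ i), by rw [← Category.assoc, IsSplitMono.id]⟩⟩⟩

theorem Semisimple.quot {M Q : A} (p : M ⟶ Q) [Epi p] (h : Semisimple M) : Semisimple Q := by
  have h1 := h _ (kernel.ι p) inferInstance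
  have h2 : kernel.ι p ≫ (𝟙 M - retraction (kernel.ι p) ≫ kernel.ι p) = 0 := by
    rw [Preadditive.comp_sub, ← Category.assoc, IsSplitMono.id]
    simp
  have h3 := Abelian.comp_epiDesc p _ h2
  have h4 : Abelian.epiDesc p _ h2 ≫ p = 𝟙 Q := by
    rw [← cancel_epi p, ← Category.assoc, h3, Preadditive.sub_comp, Category.assoc,
      kernel.condition]
    simp
  have : Mono (Abelian.epiDesc p _ h2) := by
    have : Mono (Abelian.epiDesc p _ h2 ≫ p) := by rw [h4]; infer_instance
    exact mono_of_mono _ p
  exact h.sub (Abelian.epiDesc p _ h2)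

theorem exists_retr {S M : A} (hM : Semisimple M) (x : S ⟶ M) (hx : Mono x) :
    ∃ r : M ⟶ S, x ≫ r = 𝟙 S := by
  have h := hM _ x hx
  exact ⟨retraction x, IsSplitMono.id x⟩

theorem Semisimple.biprod {M N : A} (hM : Semisimple M) (hN : Semisimple N) :
    Semisimple (M ⊞ N) := by
  intro S x hx
  set f : S ⟶ N := x ≫ biprod.snd with hf
  have hkx : Mono (kernel.ι f ≫ x ≫ biprod.fst) := by
    apply Preadditive.mono_of_cancel_zero
    intro W g hg
    have h1 : (g ≫ kernel.ι f) ≫ x = 0 := by
      apply biprod.hom_ext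
      · simpa using hg
      · rw [zero_comp, Category.assoc, Category.assoc, ← hf, kernel.condition, comp_zero]
    have h2 : g ≫ kernel.ι f = 0 := by
      rw [← cancel_mono x, h1, zero_comp]
    rw [← cancel_mono (kernel.ι f), h2, zero_comp]
  obtain ⟨r, hr⟩ := exists_retr hM _ hkx
  obtain ⟨q, hq⟩ := exists_retr hN (Abelian.factorThruCoimage f) inferInstance
  have hkt : kernel.ι f ≫ (x ≫ biprod.fst ≫ r) = 𝟙 _ := by
    rw [← hr]
    simp
  have h3 : kernel.ι f ≫ (𝟙 S - (x ≫ biprod.fst ≫ r) ≫ kernel.ι f) = 0 := by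
    rw [Preadditive.comp_sub, ← Category.assoc, hkt]
    simp
  have h4 : Abelian.coimage.π f ≫ cokernel.desc (kernel.ι f) _ h3 =
      𝟙 S - (x ≫ biprod.fst ≫ r) ≫ kernel.ι f := cokernel.π_desc _ _ _
  refine ⟨⟨⟨biprod.fst ≫ r ≫ kernel.ι f + biprod.snd ≫ q ≫
    cokernel.desc (kernel.ι f) _ h3, ?_⟩⟩⟩
  have h5 : x ≫ biprod.snd ≫ q ≫ cokernel.desc (kernel.ι f) _ h3 =
      Abelian.coimage.π f ≫ cokernel.desc (kernel.ι f) _ h3 := by
    have h6 : f ≫ q = Abelian.coimage.π f := by
      have h7 : (Abelian.coimage.π f ≫ Abelian.factorThruCoimage f) ≫ q = f ≫ q := by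
        rw [Abelian.coimage.fac]
      rw [← h7, Category.assoc, hq, Category.comp_id]
    have h8 : x ≫ biprod.snd ≫ q ≫ cokernel.desc (kernel.ι f) _ h3 =
        (f ≫ q) ≫ cokernel.desc (kernel.ι f) _ h3 := by
      simp only [hf, Category.assoc]
    rw [h8, h6]
  rw [Preadditive.comp_add, h5, h4]
  simp only [Category.assoc]
  abel

end general

section frob

variable {A : Type u} [Category.{v} A] [Abelian A] [Linear ℚ A] [MonoidalCategory A]
  [MonoidalPreadditive A] [MonoidalLinear ℚ A] [SymmetricCategory A] [RightRigidCategory A]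
  {K : Type w} [Field K] [CharZero K] (D : FrobeniusData A K)

variable {D}

theorem common_left (hu : UnitRat A) {S M : A} (x : S ⟶ M) [Mono x] (N : A) :
    common D M N = common D S N + common D (cokernel x) N := by
  have h : D.mult M = D.mult S + D.mult (cokernel x) := by
    ext α
    exact D.mult_exact hu x α
  unfold common
  rw [h, Finsupp.sum_add_index' (fun _ => by simp) (fun _ _ _ => by ring)]

theorem common_right (hu : UnitRat A) {S M : A} (x : S ⟶ M) [Mono x] (N : A) :
    common D N M = common D N S + common D N (cokernel x) := by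
  unfold common
  rw [← Finsupp.sum_add]
  refine Finsupp.sum_congr fun α _ => ?_
  rw [D.mult_exact hu x α]
  ring

/-- **Splitting criterion.** -/
theorem semisimple_of_tate (hu : UnitRat A) {V : A} (hV : TateEnd D V) : Semisimple V := by
  intro S x hx
  have hN : UnitNormal A := unitNormal hu
  have fin := fun M N : A => (D.finrank_hom_le hu hN M N).1
  have le := fun M N : A => (D.finrank_hom_le hu hN M N).2
  set Q := cokernel x with hQ
  set p : V ⟶ Q := cokernel.π x with hp
  -- `dim Hom(V, V) ≤ dim Hom(Q, V) + dim Hom(S, V)`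
  have h1 : Module.finrank ℚ (V ⟶ V) ≤ Module.finrank ℚ (Q ⟶ V) + Module.finrank ℚ (S ⟶ V) := by
    let φ : (V ⟶ V) →ₗ[ℚ] (S ⟶ V) := Linear.leftComp ℚ V x
    let ψ : (Q ⟶ V) →ₗ[ℚ] (V ⟶ V) := Linear.leftComp ℚ V p
    have h2 : LinearMap.ker φ ≤ LinearMap.range ψ := by
      intro f hf
      have hf' : x ≫ f = 0 := hf
      exact ⟨cokernel.desc x f hf', cokernel.π_desc _ _ _⟩
    have _ := fin V V
    have _ := fin Q V
    have _ := fin S V
    have h3 := LinearMap.finrank_range_add_finrank_ker φ
    have h4 := Submodule.finrank_mono h2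
    have h5 := LinearMap.finrank_range_le ψ
    have h6 := Submodule.finrank_le (LinearMap.range φ)
    omega
  -- surjectivity of `Hom(Q, V) → Hom(Q, Q)`
  let θ : (Q ⟶ V) →ₗ[ℚ] (Q ⟶ Q) := Linear.rightComp ℚ Q p
  have h7 : Module.finrank ℚ (LinearMap.ker θ) ≤ Module.finrank ℚ (Q ⟶ S) := by
    have _ := fin Q S
    have h8 : LinearMap.ker θ ≤ LinearMap.range (Linear.rightComp ℚ Q x) := by
      intro f hf
      have hf' : f ≫ p = 0 := hf
      exact ⟨Abelian.monoLift x f hf', Abelian.monoLift_comp x f hf'⟩
    have _ := fin Q V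
    exact (Submodule.finrank_mono h8).trans (LinearMap.finrank_range_le _)
  have _ := fin Q V
  have _ := fin Q Q
  have h9 := LinearMap.finrank_range_add_finrank_ker θ
  have h10 : common D V V ≤ Module.finrank ℚ (V ⟶ V) := hV
  have h11 : common D V V = common D S V + common D Q V := common_left (D := D) hu x V
  have h12 : common D Q V = common D Q S + common D Q Q := common_right (D := D) hu x Q
  have h13 : Module.finrank ℚ (S ⟶ V) ≤ common D S V := le S V
  have h14 : Module.finrank ℚ (Q ⟶ S) ≤ common D Q S := le Q S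
  have h15 : Module.finrank ℚ (Q ⟶ Q) ≤ common D Q Q := le Q Q
  have h16 : Module.finrank ℚ (Q ⟶ Q) ≤ Module.finrank ℚ (LinearMap.range θ) := by
    omega
  have h17 : LinearMap.range θ = ⊤ := by
    apply Submodule.eq_top_of_finrank_eq
    exact le_antisymm (Submodule.finrank_le _) h16
  obtain ⟨s, hs⟩ : (𝟙 Q) ∈ LinearMap.range θ := by rw [h17]; trivial
  exact split_of_section x s hs

/-- The unit object is semisimple. -/
theorem semisimple_unit (hu : UnitRat A) : Semisimple (𝟙_ A) := by
  intro S x hx
  obtain ⟨s, hs⟩ := split_of_zero (cokernel.π x)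
  exact split_of_section x s hs

/-- No nonzero class on a semisimple object is numerically trivial. -/
theorem numTrivial_eq_bot (hu : UnitRat A) {M : A} (hM : Semisimple M) : numTrivial M = ⊥ := by
  rw [eq_bot_iff]
  intro x hx
  rw [Submodule.mem_bot]
  by_contra h
  have h1 := mono_of_unit hu x h
  have h2 := hM _ x h1
  have h3 : x ≫ retraction x = 0 := hx _
  rw [IsSplitMono.id] at h3
  exact hu.one_ne_zero h3

/-- Numerically trivial morphisms between semisimple objects are zero. -/
theorem numTrivial_hom (D : FrobeniusData A K) (hu : UnitRat A) {M N : A} (hM : Semisimple M)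
    (hN : Semisimple N) (f : M ⟶ N) (hf : ∀ g : N ⟶ M, tr (f ≫ g) = 0) : f = 0 := by
  obtain ⟨r, hr⟩ := exists_retr hM (kernel.ι f) inferInstance
  obtain ⟨q, hq⟩ := exists_retr hN (Abelian.factorThruCoimage f) inferInstance
  have h3 : kernel.ι f ≫ (𝟙 M - r ≫ kernel.ι f) = 0 := by
    rw [Preadditive.comp_sub, ← Category.assoc, hr]
    simp
  obtain ⟨s, h4⟩ : ∃ s : Abelian.coimage f ⟶ M,
      Abelian.coimage.π f ≫ s = 𝟙 M - r ≫ kernel.ι f :=
    ⟨cokernel.desc (kernel.ι f) _ h3, cokernel.π_desc _ _ _⟩
  obtain ⟨g, h5⟩ : ∃ g : N ⟶ M, f ≫ g = 𝟙 M - r ≫ kernel.ι f := by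
    refine ⟨q ≫ s, ?_⟩
    have h7 : f ≫ q = Abelian.coimage.π f := by
      calc f ≫ q = (Abelian.coimage.π f ≫ Abelian.factorThruCoimage f) ≫ q := by
            rw [Abelian.coimage.fac]
        _ = Abelian.coimage.π f := by rw [Category.assoc, hq, Category.comp_id]
    rw [← Category.assoc, h7, h4]
  have h6 : (f ≫ g) ≫ f = f := by
    rw [h5, Preadditive.sub_comp, Category.assoc, kernel.condition]
    simp
  have h7 : NumTrivial (f ≫ g) := by
    intro e
    rw [Category.assoc]
    exact hf _
  obtain ⟨n, hn⟩ := D.nilpotent hu (unitNormal hu) _ h7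
  have h8 : ∀ n : ℕ, iter (f ≫ g) n ≫ f = f := by
    intro n
    induction n with
    | zero => exact Category.id_comp f
    | succ n ih =>
      change (iter (f ≫ g) n ≫ f ≫ g) ≫ f = f
      rw [Category.assoc, h6, ih]
  rw [← h8 n, hn, zero_comp]

theorem Semisimple.factor {M N S : A} (i₁ : M ⟶ S) (i₂ : N ⟶ S) (p₁ : S ⟶ M) (p₂ : S ⟶ N)
    (h : p₁ ≫ i₁ + p₂ ≫ i₂ = 𝟙 S) (hM : Semisimple M) (hN : Semisimple N) : Semisimple S := by
  have h1 : biprod.lift p₁ p₂ ≫ biprod.desc i₁ i₂ = 𝟙 S := by
    rw [biprod.lift_desc, h]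
  have h2 : Mono (biprod.lift p₁ p₂) := by
    have : Mono (biprod.lift p₁ p₂ ≫ biprod.desc i₁ i₂) := by rw [h1]; infer_instance
    exact mono_of_mono _ (biprod.desc i₁ i₂)
  exact (hM.biprod hN).sub (biprod.lift p₁ p₂)

theorem generated_semisimple (hu : UnitRat A) (hT : TensorSemisimple A) {V : A → Prop}
    (hV : ∀ M, V M → TateEnd D M) {M : A} (hM : Generated V M) : Semisimple M := by
  induction hM with
  | unit => exact semisimple_unit hu
  | mem M h => exact semisimple_of_tate hu (hV M h)
  | sub i hi _ h => exact h.sub i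
  | quot p hp _ h => exact h.quot p
  | factor M N S i₁ i₂ p₁ p₂ h _ _ h1 h2 => exact Semisimple.factor i₁ i₂ p₁ p₂ h h1 h2
  | tensor M N _ _ h1 h2 => exact hT M N h1 h2

theorem TensorGenerated.generated {V : A → Prop} {M : A} (hM : TensorGenerated V M) :
    Generated V M := by
  induction hM with
  | unit => exact Generated.unit
  | mem M h => exact Generated.mem M h
  | factor M N S i₁ i₂ p₁ p₂ h _ _ h1 h2 => exact Generated.factor M N S i₁ i₂ p₁ p₂ h h1 h2
  | tensor M N _ _ h1 h2 => exact Generated.tensor M N h1 h2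

/-- Tate's equality is inherited by subobjects and quotients. -/
theorem tateEnd_sub (hu : UnitRat A) {V : A} (hV : TateEnd D V) {S : A} (x : S ⟶ V) [Mono x] :
    TateEnd D S ∧ TateEnd D (cokernel x) := by
  have hN : UnitNormal A := unitNormal hu
  have fin := fun M N : A => (D.finrank_hom_le hu hN M N).1
  have le : ∀ M N : A, Module.finrank ℚ (M ⟶ N) ≤ common D M N :=
    fun M N : A => (D.finrank_hom_le hu hN M N).2
  have h1 : ∀ T : A, Module.finrank ℚ (V ⟶ T) ≤
      Module.finrank ℚ (cokernel x ⟶ T) + Module.finrank ℚ (S ⟶ T) := by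
    intro T
    let φ : (V ⟶ T) →ₗ[ℚ] (S ⟶ T) := Linear.leftComp ℚ T x
    let ψ : (cokernel x ⟶ T) →ₗ[ℚ] (V ⟶ T) := Linear.leftComp ℚ T (cokernel.π x)
    have h2 : LinearMap.ker φ ≤ LinearMap.range ψ := by
      intro f hf
      have hf' : x ≫ f = 0 := hf
      exact ⟨cokernel.desc x f hf', cokernel.π_desc _ _ _⟩
    have _ := fin V T
    have _ := fin (cokernel x) T
    have _ := fin S T
    have h3 := LinearMap.finrank_range_add_finrank_ker φ
    have h4 := Submodule.finrank_mono h2
    have h5 := LinearMap.finrank_range_le ψ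
    have h6 := Submodule.finrank_le (LinearMap.range φ)
    omega
  have h2 : ∀ T : A, Module.finrank ℚ (T ⟶ V) ≤
      Module.finrank ℚ (T ⟶ S) + Module.finrank ℚ (T ⟶ cokernel x) := by
    intro T
    let φ : (T ⟶ V) →ₗ[ℚ] (T ⟶ cokernel x) := Linear.rightComp ℚ T (cokernel.π x)
    let ψ : (T ⟶ S) →ₗ[ℚ] (T ⟶ V) := Linear.rightComp ℚ T x
    have h2 : LinearMap.ker φ ≤ LinearMap.range ψ := by
      intro f hf
      have hf' : f ≫ cokernel.π x = 0 := hf
      exact ⟨Abelian.monoLift x f hf', Abelian.monoLift_comp x f hf'⟩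
    have _ := fin T V
    have _ := fin T (cokernel x)
    have _ := fin T S
    have h3 := LinearMap.finrank_range_add_finrank_ker φ
    have h4 := Submodule.finrank_mono h2
    have h5 := LinearMap.finrank_range_le ψ
    have h6 := Submodule.finrank_le (LinearMap.range φ)
    omega
  have a1 := h1 V
  have a2 := h2 S
  have a3 := h2 (cokernel x)
  have b1 : common D V V = common D S V + common D (cokernel x) V := common_left hu x V
  have b2 : common D S V = common D S S + common D S (cokernel x) := common_right hu x S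
  have b3 : common D (cokernel x) V = common D (cokernel x) S +
    common D (cokernel x) (cokernel x) := common_right hu x (cokernel x)
  have c1 := le S S
  have c2 := le S (cokernel x)
  have c3 := le (cokernel x) S
  have c4 := le (cokernel x) (cokernel x)
  have d : common D V V ≤ Module.finrank ℚ (V ⟶ V) := hV
  constructor
  · change common D S S ≤ _
    omega
  · change common D (cokernel x) (cokernel x) ≤ _
    omega

end frob

end Pool.Agent.U692.AT
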