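import Pool.Agent.U692.AT.Conv

/-!
# Reduction to tensor products of generators
-/

set_option autoImplicit false
set_option linter.unusedSectionVars false
set_option linter.unusedVariables false

namespace Pool.Agent.U692.AT

open CategoryTheory MonoidalCategory CategoryTheory.Limits U226.AB

universe v u w

/-- The tensor products `V₁ ⊗ ... ⊗ Vₙ` of objects in `V` (with any brackets and units). -/
inductive Word {A : Type u} [Category.{v} A] [MonoidalCategory A] (V : A → Prop) : A → Prop
  | unit : Word V (𝟙_ A)
  | mem (M : A) : V M → Word V M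
  | tensor (M N : A) : Word V M → Word V N → Word V (M ⊗ N)

variable {A : Type u} [Category.{v} A] [Preadditive A] [MonoidalCategory A]
  [MonoidalPreadditive A]

/-- The identity of `M` is a finite sum of morphisms which factor through tensor products of objects
in `V`. -/
inductive Cov (V : A → Prop) (M : A) : (M ⟶ M) → Prop
  | zero : Cov V M 0
  | one (W : A) (p : M ⟶ W) (i : W ⟶ M) : Word V W → Cov V M (p ≫ i)
  | add (f g : M ⟶ M) : Cov V M f → Cov V M g → Cov V M (f + g)

variable {V : A → Prop}

theorem Cov.conj {M S : A} (p : S ⟶ M) (i : M ⟶ S) {f : M ⟶ M} (hf : Cov V M f) :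
    Cov V S (p ≫ f ≫ i) := by
  induction hf with
  | zero => simpa using Cov.zero
  | one W q j hW =>
    have := Cov.one (V := V) W (p ≫ q) (j ≫ i) hW
    simpa using this
  | add f g _ _ h1 h2 =>
    have := Cov.add _ _ h1 h2
    simpa using this

theorem Cov.tensor {M N : A} {f : M ⟶ M} {g : N ⟶ N} (hf : Cov V M f) (hg : Cov V N g) :
    Cov V (M ⊗ N) (f ⊗ₘ g) := by
  induction hf with
  | zero => simpa using Cov.zero
  | one W q j hW =>
    induction hg with
    | zero => simpa using Cov.zero
    | one W' q' j' hW' =>
      have := Cov.one (V := V) (W ⊗ W') (q ⊗ₘ q') (j ⊗ₘ j') (Word.tensor W W' hW hW')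
      simpa using this
    | add f g _ _ h1 h2 =>
      have := Cov.add _ _ h1 h2
      rw [MonoidalPreadditive.tensor_add]
      exact this
  | add f g _ _ h1 h2 =>
    have := Cov.add _ _ h1 h2
    rw [MonoidalPreadditive.add_tensor]
    exact this

theorem TensorGenerated.cov {M : A} (hM : TensorGenerated V M) : Cov V M (𝟙 M) := by
  induction hM with
  | unit =>
    have := Cov.one (V := V) (𝟙_ A) (𝟙 _) (𝟙 _) Word.unit
    simpa using this
  | mem M h =>
    have := Cov.one (V := V) M (𝟙 _) (𝟙 _) (Word.mem M h)
    simpa using this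
  | factor M N S i₁ i₂ p₁ p₂ h _ _ h1 h2 =>
    rw [← h]
    have := Cov.add _ _ (h1.conj p₁ i₁) (h2.conj p₂ i₂)
    simpa using this
  | tensor M N _ _ h1 h2 =>
    have := Cov.tensor h1 h2
    simpa using this

theorem numTrivial_of_words [Linear ℚ A] (h : ∀ W : A, Word V W → numTrivial W = ⊥) {M : A}
    (hM : TensorGenerated V M) : numTrivial M = ⊥ := by
  rw [eq_bot_iff]
  intro x hx
  rw [Submodule.mem_bot]
  have key : ∀ f : M ⟶ M, Cov V M f → x ≫ f = 0 := by
    intro f hf
    induction hf with
    | zero => simp
    | one W p i hW =>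
      have h1 : x ≫ p ∈ numTrivial W := by
        intro y
        rw [Category.assoc]
        exact hx _
      rw [h W hW, Submodule.mem_bot] at h1
      rw [← Category.assoc, h1, zero_comp]
    | add f g _ _ h1 h2 => rw [Preadditive.comp_add, h1, h2, add_zero]
  have := key _ hM.cov
  simpa using this

end Pool.Agent.U692.AT
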